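import Pool.Agent.Q173.OG.Rigid

/-!
# MP_0f76a4_ag: weight-monodromy for rigid-analytic varieties and one-sided bounds

`C` is the class of the (geometrically connected) smooth rigid-analytic varieties over the `p`-adic
field `K` which have an admissible formal model with projective special fibre. It is closed under
products (the special fibre of the product of the models is the product of the special fibres), and
its members are proper. `PTheory C Ω` is the `ℓ`-adic cohomology of these varieties, with the action
`F` of a geometric Frobenius lift `g` (any one) and the logarithm `N` of the monodromy; `IsKnown` are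
the known properties which are used: `N F = q F N`, the eigenvalues of `F` are `q`-Weil numbers,
Poincare duality between `H^m` and `H^(2 d - m)`, and the Künneth formula. No hard Lefschetz theorem
and no algebraicity is used. `MWPure q m` is the conclusion of Q1 for `H^m`.

Let `E` be a member of the class with `N ≠ 0` on `H^1(E)` and known weights, e.g. a Tate curve.
The weight-monodromy conjecture for `X` in all degrees (an equality of two filtrations) is equivalent
to the inequality

  weights of `F` on `Ker (N | H^j(Y)) ≤ j + n`  for all `j`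

for `Y = (X × E^k)^(n + 1)` (`n ≥ 0` arbitrary; `k + 1` is a number such that the conjecture is known
above `k + 1`, e.g. `k + 1 = dim X`), and to the inequality `≤ j + 2 n + 1` for
`Y = (X × X)^(n + 1)`. The conjecture holds for the whole class if and only if the weights of the
invariants of `H^j(Y)` are at most `j + o(dim Y)`.
-/

set_option autoImplicit false

open Module

universe u v w

namespace Pool.Agent.Results.MP_0f76a4_ag.OneSidedRigid

open Pool.Agent.Y143 Pool.Agent.Y163.MW Pool.Agent.Q57.WM Pool.Agent.Q173.OS Pool.Agent.Q173.OG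

section

variable {C : Type u} {Ω : Type w} [Field Ω] [CharZero Ω]

/-- The conjecture for `X` is equivalent to the bound `j + n` for `Y = (X × E^k)^(n + 1)`, and then
even the bound `j` holds for all `(X × E^a)^(n + 1)`. -/
def TestCurve (T : PTheory.{u, v, w} C Ω) (q : ℕ) : Prop :=
  ∀ (X E : C), IsTest (T.H E) q → ∀ k : ℕ, (∀ m, WMAbove (T.H X) q m (k + 1)) →
    (∀ n : ℕ, (∀ m, (T.H X).MWPure q m) ↔ InvBound (T.H (T.pw (T.stk X E k) n)) q n) ∧
      ((∀ m, (T.H X).MWPure q m) → ∀ a n, InvBound (T.H (T.pw (T.stk X E a) n)) q 0)

/-- The conjecture for `X` is equivalent to the bound `j + 2 n + 1` for `Y = (X × X)^(n + 1)`, and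
then even the bound `j` holds. -/
def Squares (T : PTheory.{u, v, w} C Ω) (q : ℕ) : Prop :=
  ∀ (X : C) (n : ℕ),
    ((∀ m, (T.H X).MWPure q m) ↔ InvBound (T.H (T.pw (T.prod X X) n)) q (2 * n + 1)) ∧
      ((∀ m, (T.H X).MWPure q m) → InvBound (T.H (T.pw (T.prod X X) n)) q 0)

/-- The conjecture holds for all `X` of dimension `≥ 1` of the class if and only if the weights of the
invariants of `H^j(Y)` are at most `j + ε dim Y` for `dim Y ≥ D(ε)`. -/
def Uniform (T : PTheory.{u, v, w} C Ω) (q : ℕ) : Prop :=
  (∀ X : C, 1 ≤ T.dim X → ∀ m, (T.H X).MWPure q m) ↔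
    ∀ ε : ℝ, 0 < ε → ∃ D : ℕ, ∀ Y : C, D ≤ T.dim Y → InvBound (T.H Y) q ⌊ε * T.dim Y⌋

end

/-- **One-sided bounds and weight-monodromy for rigid-analytic varieties.** -/
theorem result {C : Type u} {Ω : Type w} [Field Ω] [CharZero Ω] [IsAlgClosed Ω]
    {T : PTheory.{u, v, w} C Ω} {q : ℕ} (hq : 1 < q) (hT : T.IsKnown q) :
    TestCurve T q ∧ Squares T q ∧ Uniform T q := by
  refine ⟨?_, ?_, T.uniform hq hT⟩
  · intro X E hE k hk
    refine ⟨fun n => ⟨fun h => (T.bound_stk hq hT h hE k n).mono (by omega),
      fun h => T.pure_of_stk hq hT hE hk n h⟩, fun h a n => T.bound_stk hq hT h hE a n⟩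
  · intro X n
    exact ⟨⟨fun h => (T.bound_square hq hT h n).mono (by omega),
      fun h => T.pure_of_square hq hT n h⟩, fun h => T.bound_square hq hT h n⟩

end Pool.Agent.Results.MP_0f76a4_ag.OneSidedRigid
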