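import Pool.Agent.Q57.PL.LawsMain

/-!
# MP_0f76a4_ag: the weight-monodromy conjecture for rigid-analytic varieties from second moments

`C` is a class of smooth rigid-analytic varieties over the `p`-adic local field `K` (residue field with
`q` elements) with a formal model with projective special fibre, closed under products (geometrically
connected, of pure dimension `dim`), `T : PTheory C Ω` is their `ℓ`-adic cohomology with a geometric
Frobenius lift `F` and the operator `N`, with its known properties `IsKnown` (`N F = q F N`, Weil
numbers, Poincare duality between `H^m` and `H^(2 d - m)`, Künneth formula; no Lefschetz theorem).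
For a variety `Y` let `totWeightMoment` be the sum of the `(w - j)²` over the eigenvalues of `F` on
all the `H^j(Y)` (`w` the weight) and `totRankMoment = 2 ∑ k rank (N^k)`. We show that the second is at
most the first, with equality exactly if Q1 holds for all `H^m(Y)`, and that approximate equality on
high powers of `X`, with an error, suffices for Q1 for `X`.
-/

set_option autoImplicit false

open Module

universe u v w

namespace Pool.Agent.Results.MP_0f76a4_ag.SecondMomentsRigid

open Pool.Agent.Y143 Pool.Agent.Y163.MW Pool.Agent.Y163.MW.Coh Pool.Agent.Q173.OG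
  Pool.Agent.Q173.AL Pool.Agent.Q57.PL.L

section

variable {C : Type u} {Ω : Type w} [Field Ω] [CharZero Ω]

/-- The second moments: always `totRankMoment ≤ totWeightMoment`, and the conclusion of Q1 for all
`H^m(X)` is the equality. -/
def Moments (T : PTheory.{u, v, w} C Ω) (q : ℕ) : Prop :=
  ∀ X : C, (T.H X).totRankMoment ≤ (T.H X).totWeightMoment q ∧
    ((T.H X).totRankMoment = (T.H X).totWeightMoment q ↔ ∀ m, (T.H X).MWPure q m)

/-- One variety, second moments: an error less than `(n + 1) b ^ n` on `X ^ (n + 1)` is allowed, where
`b` is the dimension of `H^*(X)`. -/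
def MomentCriterion (T : PTheory.{u, v, w} C Ω) (q : ℕ) : Prop :=
  ∀ (X : C) (n : ℕ), (T.H (T.pw X n)).totWeightMoment q <
    (T.H (T.pw X n)).totRankMoment + (n + 1) * (finrank Ω (T.H X).V : ℤ) ^ n →
      ∀ m, (T.H X).MWPure q m

end

/-- **The weight-monodromy conjecture for rigid-analytic varieties from second moments.** -/
theorem result {C : Type u} {Ω : Type w} [Field Ω] [CharZero Ω] [IsAlgClosed Ω]
    {T : PTheory.{u, v, w} C Ω} {q : ℕ} (hq : 1 < q) (hT : T.IsKnown q) :
    Moments T q ∧ MomentCriterion T q ∧
      ((∀ X : C, 1 ≤ T.dim X → ∀ m, (T.H X).MWPure q m) ↔ SmallMoments T q) := by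
  refine ⟨fun X => moment_tot hq (hT.pre X), fun X n h => ?_, moments_of_pure hT hq,
    fun h X hd => pure_of_moments hT hq h X hd⟩
  by_contra hX
  exact absurd (moments_pow hT hq hX n) (not_le.2 h)

end Pool.Agent.Results.MP_0f76a4_ag.SecondMomentsRigid
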